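import Pool.Agent.Helper28.OHS.Goals2
import Pool.Agent.Helper81.Sus2.LSW

/-!
# Packet OHS-LSW: the functions of the machine on numbers are computed in linear space
-/

set_option linter.unusedSectionVars false

namespace Pool.Agent.Helper15.OHS

open Pool.Agent.Helper65.LinSpace Pool.Agent.Helper78.Mpc Pool.Agent.Helper28.Ram Finset
open Pool.Agent.Helper65.OH (Prm)
open Pool.Agent.Helper54.OH (PF LS_accN LS_tab)
open Pool.Agent.Helper81.Sus2 (LSP)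
open Pool.Agent.Helper81.Sus2H56 (lsp_comp ls_lk ls_pow2)
open Pool.Agent.Helper28.OHS

/-! ### Bounds -/

theorem pow_log_le (a : ℕ) : 2 ^ Nat.log 2 a ≤ a + 1 := by
  rcases Nat.eq_zero_or_pos a with h | h
  · rw [h]
    simp
  · exact (Nat.pow_log_le_self 2 h.ne').trans (Nat.le_succ _)

theorem catN_le (a b : ℕ) : catN a b ≤ a * b := by
  unfold catN
  rcases Nat.eq_zero_or_pos a with ha | ha
  · subst ha
    rw [ifz_zero]
    exact Nat.zero_le _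
  rcases Nat.eq_zero_or_pos b with hb | hb
  · subst hb
    rw [ifz_ne ha.ne', ifz_zero]
    simp
  rw [ifz_ne ha.ne', ifz_ne hb.ne']
  have h1 : 2 ^ Nat.log 2 a ≤ a := Nat.pow_log_le_self 2 ha.ne'
  obtain ⟨r, hr⟩ := Nat.exists_eq_add_of_le h1
  have h2 : r ≤ r * b := Nat.le_mul_of_pos_right _ hb
  calc a - 2 ^ Nat.log 2 a + 2 ^ Nat.log 2 a * b = r + 2 ^ Nat.log 2 a * b := by
        congr 1
        omega
    _ ≤ r * b + 2 ^ Nat.log 2 a * b := Nat.add_le_add_right h2 _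
    _ = (2 ^ Nat.log 2 a + r) * b := by ring
    _ = a * b := by rw [← hr]

theorem sdN_le (a : ℕ) : sdN a ≤ 4 * a * a := by
  unfold sdN
  rcases Nat.eq_zero_or_pos a with ha | ha
  · subst ha
    rw [ifz_zero]
  rw [ifz_ne ha.ne']
  have h1 : 2 ^ Nat.log 2 a ≤ a := Nat.pow_log_le_self 2 ha.ne'
  have h2 : tab 2 (2 * Nat.log 2 a + 1) (fun t => ifz (t % 2) (lt01 (t / 2) (Nat.log 2 a))
      (dig 2 a (t / 2))) < 2 ^ (2 * Nat.log 2 a + 1) := by
    apply tab_lt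
    intro i _
    have h3 := dig_lt (q := 2) (by norm_num) a (i / 2)
    simp only [ifz, lt01]
    split_ifs <;> omega
  have e : 2 ^ (2 * Nat.log 2 a + 1) = 2 * (2 ^ Nat.log 2 a * 2 ^ Nat.log 2 a) := by ring
  have h4 : 2 ^ Nat.log 2 a * 2 ^ Nat.log 2 a ≤ a * a := Nat.mul_le_mul h1 h1
  rw [mul_assoc]
  omega

theorem binN_le (a b : ℕ) (h : a ≤ b) (hb : 1 ≤ b) : binN a ≤ 3 * b := by
  unfold binN
  rcases Nat.eq_zero_or_pos a with ha | ha
  · subst ha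
    rw [ifz_zero]
    omega
  rw [ifz_ne ha.ne']
  have h1 : 2 ^ Nat.log 2 a ≤ a := Nat.pow_log_le_self 2 ha.ne'
  omega

theorem intN_le (κ u : ℕ) (hu : u ≤ 2 ^ κ) : intN κ u ≤ 2 ^ (κ + 3) := by
  unfold intN
  have h1 : 2 ^ (κ - 1) ≤ 2 ^ κ := Nat.pow_le_pow_right (by norm_num) (Nat.sub_le _ _)
  have h2 : 1 ≤ 2 ^ κ := Nat.one_le_two_pow
  have h0 : (u - 2 ^ (κ - 1)) + (2 ^ (κ - 1) - u) ≤ 2 ^ κ := by
    generalize 2 ^ (κ - 1) = p at *
    generalize 2 ^ κ = q at *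
    omega
  have h3 := binN_le ((u - 2 ^ (κ - 1)) + (2 ^ (κ - 1) - u)) (2 ^ κ) h0 h2
  have h4 : le01 (2 ^ (κ - 1)) u ≤ 1 := by
    unfold le01
    split_ifs <;> omega
  have h5 : 2 ^ (κ + 3) = 8 * 2 ^ κ := by ring
  omega

theorem cellN_step (κ : ℕ) (u : ℕ → ℕ) (hu : ∀ k, u k ≤ 2 ^ κ) (i : ℕ) :
    nrec 1 (fun k v => catN v (sdN (intN κ (u k)))) i ≤ 2 ^ ((2 * κ + 8) * i) := by
  induction i with
  | zero => simp
  | succ i ih =>
    rw [nrec_succ]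
    refine (catN_le _ _).trans ?_
    have h1 := intN_le κ (u i) (hu i)
    have h2 : sdN (intN κ (u i)) ≤ 2 ^ (2 * κ + 8) := by
      refine (sdN_le _).trans ?_
      calc 4 * intN κ (u i) * intN κ (u i) ≤ 4 * 2 ^ (κ + 3) * 2 ^ (κ + 3) :=
            Nat.mul_le_mul (Nat.mul_le_mul_left _ h1) h1
        _ = 2 ^ (2 * κ + 8) := by ring
    calc _ ≤ 2 ^ ((2 * κ + 8) * i) * 2 ^ (2 * κ + 8) := Nat.mul_le_mul ih h2
      _ = 2 ^ ((2 * κ + 8) * (i + 1)) := by ring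

theorem cellN_bd (κ D C : ℕ) (u : ℕ → ℕ) (hu : ∀ k, u k ≤ 2 ^ κ)
    (hC : 2 ^ ((2 * κ + 3) * D + 1) ≤ C) (i : ℕ) (hi : i ≤ D) :
    nrec 1 (fun k v => catN v (sdN (intN κ (u k)))) i ≤ C * C * C := by
  refine (cellN_step κ u hu i).trans ?_
  have h1 : (2 * κ + 8) * i ≤ 3 * ((2 * κ + 3) * D + 1) := by
    have h2 : (2 * κ + 8) * i ≤ (2 * κ + 8) * D := Nat.mul_le_mul_left _ hi
    have h3 : (2 * κ + 8) * D ≤ (3 * (2 * κ + 3)) * D := Nat.mul_le_mul_right _ (by omega)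
    have h4 : (3 * (2 * κ + 3)) * D = 3 * ((2 * κ + 3) * D) := by ring
    omega
  calc 2 ^ ((2 * κ + 8) * i) ≤ 2 ^ (3 * ((2 * κ + 3) * D + 1)) :=
        Nat.pow_le_pow_right (by norm_num) h1
    _ = 2 ^ ((2 * κ + 3) * D + 1) * 2 ^ ((2 * κ + 3) * D + 1) *
          2 ^ ((2 * κ + 3) * D + 1) := by ring
    _ ≤ _ := Nat.mul_le_mul (Nat.mul_le_mul hC hC) hC

section

variable {α : Type} [Ctx α] {m : α → Prm} {e : α → Pool.Agent.Helper81.Sus2.Prm} {C : α → ℕ}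

theorem ls_binN {u : α → ℕ} (hu : LS u) : LS (fun z => binN (u z)) := by
  unfold binN
  exact LS.add hu (LS.ifz hu (LS.const 1) (LS.mul (LS.const 2) (LS.pow_log hu)))

theorem ls_intN (h : PF m C) {u : α → ℕ} (hu : LS u) : LS (fun z => intN (m z).κ (u z)) := by
  unfold intN
  have h1 := h.pκ'
  exact LS.add (LS.le01 h1 hu) (LS.mul (LS.const 2)
    (ls_binN (LS.add (LS.sub hu h1) (LS.sub h1 hu))))

/-- Names of cells. -/
theorem ls_cellN (h : PF m C) (hK : ∀ z, 2 ^ ((2 * (m z).κ + 3) * (m z).D + 1) ≤ C z)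
    {u : α → ℕ → ℕ} (hu : LS (fun p : α × ℕ => u p.1 p.2)) (hb : ∀ z k, u z k ≤ 2 ^ (m z).κ) :
    LS (fun z => cellN (m z).κ (u z) (m z).D) := by
  unfold cellN
  have p1 : LS (fun p : α × ℕ × ℕ => p.1) := LS.fst
  have hc := h.comp (π := fun p : α × ℕ × ℕ => p.1) p1
  have h2 : LS (fun p : α × ℕ × ℕ => (p.1, p.2.1)) := by fun_prop
  have hu2 : LS (fun p : α × ℕ × ℕ => u p.1 p.2.1) :=
    LS.comp (g := fun p : α × ℕ => u p.1 p.2) hu h2
  have h3 : LS (fun p : α × ℕ × ℕ => p.2.2) := by fun_prop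
  refine LS.nrec (G := fun _ => 1) (N := fun z => (m z).D)
    (K := fun z k v => catN v (sdN (intN (m z).κ (u z k)))) (C := fun z => C z * C z * C z)
    (LS.const 1) h.D (LS.mul (LS.mul h.hC h.hC) h.hC) (LS.catN h3 (LS.sdN (ls_intN hc hu2))) ?_
  intro z i hi
  exact cellN_bd _ _ _ _ (hb z) (hK z) i hi

theorem ls_cs (h : PF m C) {c : α → ℕ} (hc : LS c) : LS (fun z => cs (m z) (c z)) := by
  unfold cs
  have h1 : LS (fun p : α × ℕ => 2 ^ ((m p.1).κ - 1)) :=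
    LS.comp (g := fun z => 2 ^ ((m z).κ - 1)) h.pκ' LS.fst
  exact LS.ifz (LS.eq01 hc (LS.const 1)) (LS.mod (LS.sub hc (LS.const 2)) h.psg)
    (h.mkL (u := fun z => capN (m z).S (m z).st)
      (c := fun z _ => 2 ^ ((m z).κ - 1)) (Bd := fun z => 2 ^ ((m z).κ - 1))
      (LS.capN h.S h.st) h1 h.pκ' (fun z k _ => le_rfl))

theorem ls_cn (h : PF m C) (he : LSP e C) {c x : α → ℕ} (hc : LS c) (hx : LS x) :
    LS (fun z => cn (m z) (e z) (c z) (x z)) := by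
  unfold cn
  exact LS.capN h.S (LS.ifz (LS.eq01 hc (LS.const 1))
    (ls_lk he (LS.div (LS.sub hc (LS.const 2)) h.psg) hx) (LS.const 1))

theorem ls_cc (h : PF m C) (he : LSP e C)
    (hK : ∀ z, 2 ^ ((2 * (m z).κ + 3) * (m z).D + 1) ≤ C z) {c B j : α → ℕ} (hc : LS c)
    (hB : LS B) (hj : LS j) : LS (fun z => cc (m z) (e z) (c z) (B z) (j z)) := by
  unfold cc
  refine ls_cn h he hc (ls_cellN h hK (u := fun z k =>
    (dig (2 ^ (m z).κ) (B z) k * (m z).d + dig (m z).d (j z) k - (m z).o) % 2 ^ (m z).κ) ?_ ?_)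
  · have p1 : LS (fun p : α × ℕ => p.1) := LS.fst
    have h1 := h.comp (π := fun p : α × ℕ => p.1) p1
    have hB1 : LS (fun p : α × ℕ => B p.1) := LS.comp (g := B) hB p1
    have hj1 : LS (fun p : α × ℕ => j p.1) := LS.comp (g := j) hj p1
    exact LS.mod (LS.sub (LS.add (LS.mul (LS.dig h1.pκ hB1 LS.snd) h1.d)
      (LS.dig h1.d hj1 LS.snd)) h1.o) h1.pκ
  · intro z k
    exact (Nat.mod_lt _ (by positivity)).le

theorem cc_lt (m : Prm) (e : Pool.Agent.Helper81.Sus2.Prm) (c B j : ℕ) :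
    cc m e c B j < 2 ^ (m.S + 1) := capN_lt _ _

theorem ls_cm (h : PF m C) (he : LSP e C)
    (hK : ∀ z, 2 ^ ((2 * (m z).κ + 3) * (m z).D + 1) ≤ C z) {c B : α → ℕ} (hc : LS c)
    (hB : LS B) : LS (fun z => cm (m z) (e z) (c z) (B z)) := by
  unfold cm
  have p1 : LS (fun p : α × ℕ => p.1) := LS.fst
  have h1 := h.comp (π := fun p : α × ℕ => p.1) p1
  have he1 := lsp_comp he p1
  have hB1 : LS (fun p : α × ℕ => B p.1) := LS.comp (g := B) hB p1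
  have hc1 : LS (fun p : α × ℕ => c p.1) := LS.comp (g := c) hc p1
  have h2 : LS (fun p : α × ℕ => cc (m p.1) (e p.1) (c p.1) (B p.1) p.2) :=
    ls_cc h1 he1 (fun p => hK p.1) hc1 hB1 LS.snd
  exact LS.mod (LS_tab (q := fun z => 2 ^ ((m z).S + 1)) (m := fun z => (m z).d ^ (m z).D)
    (d := fun z => cc (m z) (e z) (c z) (B z)) (C := C) (B := fun z => 2 ^ ((m z).S + 1))
    h2 h.pS h.pd h.hC h.pS (fun z => by positivity)
    (fun z i _ => (cc_lt _ _ _ _ _).le) h.b8) h.pa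

/-! ### Events -/

theorem ls_enc (h : PF m C) {q t : α → ℕ} (hq : LS q) (ht : LS t) :
    LS (fun z => enc (m z) (q z) (t z)) := by
  unfold enc
  exact LS.add (LS.const 2) (LS.add hq (LS.mul h.psg ht))

theorem ls_dq (h : PF m C) {Q : α → ℕ} (hQ : LS Q) : LS (fun z => dq (m z) (Q z)) := by
  unfold dq
  exact LS.mod (LS.sub hQ (LS.const 2)) h.psg

theorem ls_dt (h : PF m C) {Q : α → ℕ} (hQ : LS Q) : LS (fun z => dt (m z) (Q z)) := by
  unfold dt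
  exact LS.div (LS.sub hQ (LS.const 2)) h.psg

/-! ### Steps in a cube -/

theorem rn_lt (m : Prm) (b z C : ℕ) (hC : (2 ^ (m.S + 1)) ^ (m.d ^ m.D) ≤ C) (i : ℕ) :
    rn m b z i < 2 ^ m.sg * (z + C + 1) := by
  unfold rn
  induction i with
  | zero =>
    rw [nrec_zero]
    have hp : 1 ≤ 2 ^ m.sg := Nat.one_le_two_pow
    calc z < z + C + 1 := by omega
      _ = 1 * (z + C + 1) := (one_mul _).symm
      _ ≤ _ := Nat.mul_le_mul_right _ hp
  | succ i ih =>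
    rw [nrec_succ]
    exact Pool.Agent.Helper54.OH.loc_lt m _ _ _ (hC.trans (Nat.le_add_left _ _)) ih

theorem ls_rn (h : PF m C) {b w N : α → ℕ} (hb : LS b) (hw : LS w) (hN : LS N) :
    LS (fun z => rn (m z) (b z) (w z) (N z)) := by
  unfold rn
  have p1 : LS (fun p : α × ℕ × ℕ => p.1) := LS.fst
  have hc := h.comp (π := fun p : α × ℕ × ℕ => p.1) p1
  have hb2 : LS (fun p : α × ℕ × ℕ => b p.1) := LS.comp (g := b) hb p1
  have h3 : LS (fun p : α × ℕ × ℕ => p.2.2) := by fun_prop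
  exact LS.nrec (G := w) (N := N) (K := fun z _ v => (m z).loc (b z) v)
    (C := fun z => 2 ^ (m z).sg * (w z + C z + 1)) hw hN
    (LS.mul h.psg (LS.add (LS.add hw h.hC) (LS.const 1))) (hc.loc hb2 h3)
    (fun z i _ => (rn_lt (m z) (b z) (w z) (C z) (h.b8 z) i).le)

theorem ls_act (h : PF m C) {b w : α → ℕ} (hb : LS b) (hw : LS w) :
    LS (fun z => act (m z) (b z) (w z)) := by
  unfold act
  have h1 : LS (fun z => w z % 2 ^ (m z).sg) := LS.mod hw h.psg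
  exact LS.mul (LS.eq01 (h.blk h1) hb) (LS.sub (LS.const 1) (LS_accN (h.wq h1)))

theorem act_le (m : Prm) (b z : ℕ) : act m b z ≤ 1 := by
  unfold act
  have h1 : eq01 (m.blk (z % 2 ^ m.sg)) b ≤ 1 := by
    unfold eq01
    split_ifs <;> omega
  have h2 : 1 - accN (m.wq (z % 2 ^ m.sg)) ≤ 1 := Nat.sub_le _ _
  calc _ ≤ 1 * 1 := Nat.mul_le_mul h1 h2
    _ = 1 := rfl

theorem ls_ct (h : PF m C) {b w N : α → ℕ} (hb : LS b) (hw : LS w) (hN : LS N) :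
    LS (fun z => ct (m z) (b z) (w z) (N z)) := by
  unfold ct
  have p1 : LS (fun p : α × ℕ => p.1) := LS.fst
  have h1 := h.comp (π := fun p : α × ℕ => p.1) p1
  have hb1 : LS (fun p : α × ℕ => b p.1) := LS.comp (g := b) hb p1
  have hw1 : LS (fun p : α × ℕ => w p.1) := LS.comp (g := w) hw p1
  exact LS.sum_le (N := N) (B := fun _ => 1)
    (f := fun z j => act (m z) (b z) (rn (m z) (b z) (w z) j))
    (ls_act h1 hb1 (ls_rn h1 hb1 hw1 LS.snd)) hN (LS.const 1) (fun z i _ => act_le _ _ _)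

/-! ### The machine -/

theorem ls_wA (h : PF m C) (he : LSP e C) {τ a Q : α → ℕ} (hτ : LS τ) (ha : LS a) (hQ : LS Q) :
    LS (fun z => wA (m z) (e z) (τ z) (a z) (Q z)) := by
  unfold wA
  exact LS.capN he.V (LS.ifz (LS.lt01 (LS.const 1) hQ) (LS.const 0)
    (LS.ifz (LS.eq01 (ls_dt h hQ) hτ) (h.blk (ls_dq h hQ))
      (h.blk (LS.mul h.pS (LS.sub ha (LS.const 1))))))

theorem ls_wF (h : PF m C) (he : LSP e C)
    (hK : ∀ z, 2 ^ ((2 * (m z).κ + 3) * (m z).D + 1) ≤ C z) {d a Q v : α → ℕ} (hd : LS d)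
    (ha : LS a) (hQ : LS Q) (hv : LS v) :
    LS (fun z => wF (m z) (e z) (d z) (a z) (Q z) (v z)) := by
  unfold wF
  have ha1 : LS (fun z => a z - 1) := LS.sub ha (LS.const 1)
  have p1 : LS (fun p : α × ℕ => p.1) := LS.fst
  have h1 := h.comp (π := fun p : α × ℕ => p.1) p1
  have ha2 : LS (fun p : α × ℕ => a p.1 - 1) := LS.comp (g := fun z => a z - 1) ha1 p1
  have h2 : LS (fun z => cellN (m z).κ (dig (2 ^ (m z).κ) (a z - 1)) (m z).D) :=
    ls_cellN h hK (u := fun z k => dig (2 ^ (m z).κ) (a z - 1) k) (LS.dig h1.pκ ha2 LS.snd)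
      (fun z k => (dig_lt (by positivity) _ _).le)
  exact LS.ifz hd (LS_accN (h.wq (ls_dq h hQ))) (LS.mul (LS.eq01 (ls_dq h hQ) (ls_cs h hd))
    (LS.ifz ha (LS.const 1) (LS.eq01 (LS.dig h.pS hv (h.cel (LS.mul h.pS ha1)))
      (ls_cn h he hd h2))))

theorem ls_z0 (h : PF m C) {Q v : α → ℕ} (hQ : LS Q) (hv : LS v) :
    LS (fun z => dq (m z) (Q z) + 2 ^ (m z).sg * v z) :=
  LS.add (ls_dq h hQ) (LS.mul h.psg hv)

theorem ls_wz (h : PF m C) {τ Q v : α → ℕ} (hτ : LS τ) (hQ : LS Q) (hv : LS v) :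
    LS (fun z => wz (m z) (τ z) (Q z) (v z)) := by
  unfold wz
  exact ls_rn h (h.blk (ls_dq h hQ)) (ls_z0 h hQ hv) (LS.sub hτ (ls_dt h hQ))

theorem ls_wc (h : PF m C) {τ Q v : α → ℕ} (hτ : LS τ) (hQ : LS Q) (hv : LS v) :
    LS (fun z => wc (m z) (τ z) (Q z) (v z)) := by
  unfold wc
  exact ls_ct h (h.blk (ls_dq h hQ)) (ls_z0 h hQ hv) (LS.sub hτ (ls_dt h hQ))

theorem ls_wN (h : PF m C) (he : LSP e C)
    (hK : ∀ z, 2 ^ ((2 * (m z).κ + 3) * (m z).D + 1) ≤ C z) {τ d a Q v : α → ℕ} (hτ : LS τ)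
    (hd : LS d) (ha : LS a) (hQ : LS Q) (hv : LS v) :
    LS (fun z => wN (m z) (e z) (τ z) (d z) (a z) (Q z) (v z)) := by
  unfold wN
  have h1 : LS (fun z => wz (m z) (τ z) (Q z) (v z) % 2 ^ (m z).sg) :=
    LS.mod (ls_wz h hτ hQ hv) h.psg
  exact LS.capN he.V (LS.ifz (LS.lt01 (LS.const 1) hQ) hQ (LS.ifz (LS.eq01 (ls_dt h hQ) hτ)
    (LS.ifz (h.wq h1) (LS.const 0) (ls_enc h h1 (LS.add (ls_dt h hQ) (ls_wc h hτ hQ hv))))
    (ls_wF h he hK hd ha hQ hv)))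

theorem ls_wW (h : PF m C) {τ Q v : α → ℕ} (hτ : LS τ) (hQ : LS Q) (hv : LS v) :
    LS (fun z => wW (m z) (τ z) (Q z) (v z)) := by
  unfold wW
  exact LS.mod (LS.ifz (LS.lt01 (LS.const 1) hQ) hv (LS.ifz (LS.eq01 (ls_dt h hQ) hτ)
    (LS.div (ls_wz h hτ hQ hv) h.psg) hv)) h.pa

theorem ls_w0 (h : PF m C) (he : LSP e C) {c : α → ℕ} (hc : LS c) :
    LS (fun z => w0 (m z) (e z) (c z)) := by
  unfold w0
  exact LS.capN he.V (ls_enc h (ls_cs h hc) (LS.const 0))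

theorem ls_nz (h : PF m C) (he : LSP e C) : LS (fun z => nz (m z) (e z)) := by
  unfold nz
  exact LS.add (LS.const 2) (LS.mul h.psg (ls_pow2 he (LS.add he.z (LS.const 1)) fun z =>
    (Nat.pow_le_pow_right (by norm_num) (by omega)).trans (he.bz z)))

end

/-- **Packet OHS-LSW.** -/
theorem lsw : Pool.Agent.Helper28.OHS.LSW_stmt := by
  intro α _ m e C c d τ a h he hK hc hd hτ ha
  have p1 : LS (fun z : α × ℕ => z.1) := LS.fst
  have p2 : LS (fun z : α × ℕ × ℕ => z.1) := LS.fst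
  have h1 := h.comp (π := fun z : α × ℕ => z.1) p1
  have h2 := h.comp (π := fun z : α × ℕ × ℕ => z.1) p2
  have e1 := lsp_comp he p1
  have e2 := lsp_comp he p2
  refine ⟨?_, ?_, ?_, ls_w0 h he hc, ?_, ls_nz h he⟩
  · exact ls_wA h1 e1 (LS.comp (g := τ) hτ p1) (LS.comp (g := a) ha p1) LS.snd
  · exact ls_wN h2 e2 (fun z => hK z.1) (LS.comp (g := τ) hτ p2) (LS.comp (g := d) hd p2)
      (LS.comp (g := a) ha p2) (by fun_prop) (by fun_prop)
  · exact ls_wW h2 (LS.comp (g := τ) hτ p2) (by fun_prop) (by fun_prop)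
  · exact ls_cm h1 e1 (fun z => hK z.1) (LS.comp (g := c) hc p1) LS.snd

end Pool.Agent.Helper15.OHS
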